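import Mathlib

open Finset

namespace Pool.Agent.Results.MP_b6f08f_co.TribesUnbounded

/-- `q` is a coupling of `μ` and `ν` on `{0,1}^n`. -/
def IsCoupling {n : ℕ} (q : (Fin n → Bool) → (Fin n → Bool) → ℝ) (μ ν : (Fin n → Bool) → ℝ) :
    Prop :=
  (∀ x y, 0 ≤ q x y) ∧ (∀ x, ∑ y, q x y = μ x) ∧ (∀ y, ∑ x, q x y = ν y)

/-- The Wasserstein distance for the Hamming distance: infimum of the cost over all couplings. -/
noncomputable def W1 {n : ℕ} (μ ν : (Fin n → Bool) → ℝ) : ℝ :=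
  sInf {c : ℝ | ∃ q, IsCoupling q μ ν ∧ c = ∑ x, ∑ y, (hammingDist x y : ℝ) * q x y}

/-- The tribes function `T_{s,w}(x) = 1`: some block `[iw, (i+1)w)`, `i < s`, is all ones. -/
def Tribes (s w : ℕ) (x : Fin (s * w) → Bool) : Prop :=
  ∃ i : ℕ, i < s ∧ ∀ j : Fin (s * w), i * w ≤ (j : ℕ) → (j : ℕ) < (i + 1) * w → x j = true

open Classical in
/-- `A = T_{s,w}^{-1}(1)`. -/
noncomputable def setA (s w : ℕ) : Finset (Fin (s * w) → Bool) := {x | Tribes s w x}

/-- Uniform measure on a finite set of points. -/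
noncomputable def unif {n : ℕ} (A : Finset (Fin n → Bool)) (x : Fin n → Bool) : ℝ :=
  if x ∈ A then 1 / (A.card : ℝ) else 0

/-- number of ones -/
def wt {n : ℕ} (x : Fin n → Bool) : ℝ := ∑ i, if x i = true then (1 : ℝ) else 0

lemma wt_sub_le {n : ℕ} (x y : Fin n → Bool) : wt y - wt x ≤ (hammingDist x y : ℝ) := by
  unfold wt hammingDist
  rw [← sum_sub_distrib, Finset.card_filter]
  push_cast
  apply sum_le_sum
  intro i _
  cases x i <;> cases y i <;> simp

lemma coupling_bound {n : ℕ} {q : (Fin n → Bool) → (Fin n → Bool) → ℝ}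
    {μ ν : (Fin n → Bool) → ℝ} (hq : IsCoupling q μ ν) :
    (∑ y, wt y * ν y) - (∑ x, wt x * μ x) ≤ ∑ x, ∑ y, (hammingDist x y : ℝ) * q x y := by
  obtain ⟨h0, h1, h2⟩ := hq
  have e1 : ∑ y, wt y * ν y = ∑ x, ∑ y, wt y * q x y := by
    rw [sum_comm]
    apply sum_congr rfl
    intro y _
    rw [← h2 y, mul_sum]
  have e2 : ∑ x, wt x * μ x = ∑ x, ∑ y, wt x * q x y := by
    apply sum_congr rfl
    intro x _
    rw [← h1 x, mul_sum]
  rw [e1, e2, ← sum_sub_distrib]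
  apply sum_le_sum
  intro x _
  rw [← sum_sub_distrib]
  apply sum_le_sum
  intro y _
  rw [← sub_mul]
  exact mul_le_mul_of_nonneg_right (wt_sub_le x y) (h0 x y)

lemma sum_unif {n : ℕ} (A : Finset (Fin n → Bool)) (hA : A.Nonempty) : ∑ x, unif A x = 1 := by
  unfold unif
  rw [sum_ite_mem, univ_inter, sum_const, nsmul_eq_mul]
  have : (A.card : ℝ) ≠ 0 := by
    have := hA.card_pos
    positivity
  field_simp

lemma sum_wt_unif {n : ℕ} (A : Finset (Fin n → Bool)) :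
    ∑ x, wt x * unif A x = (∑ x ∈ A, wt x) / A.card := by
  unfold unif
  simp_rw [mul_ite, mul_zero]
  rw [sum_ite_mem, univ_inter, sum_div]
  apply sum_congr rfl
  intro x _
  ring

/-- lower bound for `W1` by the difference of means of the Hamming weight -/
lemma W1_ge {n : ℕ} (A B : Finset (Fin n → Bool)) (hA : A.Nonempty) (hB : B.Nonempty) :
    (∑ x ∈ B, wt x) / B.card - (∑ x ∈ A, wt x) / A.card ≤ W1 (unif A) (unif B) := by
  unfold W1
  apply le_csInf
  · refine ⟨_, fun x y => unif A x * unif B y, ⟨?_, ?_, ?_⟩, rfl⟩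
    · intro x y
      unfold unif
      positivity
    · intro x
      rw [← mul_sum, sum_unif B hB, mul_one]
    · intro y
      rw [← sum_mul, sum_unif A hA, one_mul]
  · rintro c ⟨q, hq, rfl⟩
    have := coupling_bound hq
    rwa [sum_wt_unif, sum_wt_unif] at this

/-- block weight -/
def bw {w : ℕ} (y : Fin w → Bool) : ℝ := ∑ j, if y j = true then (1 : ℝ) else 0

lemma sum_bw (w : ℕ) : ∑ y : Fin w → Bool, bw y = w * 2 ^ w / 2 := by
  unfold bw
  rw [sum_comm]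
  have h : ∀ j : Fin w, ∑ y : Fin w → Bool, (if y j = true then (1 : ℝ) else 0) = 2 ^ w / 2 := by
    intro j
    have h1 := Fintype.sum_piFinset_apply (fun b : Bool => if b = true then (1 : ℝ) else 0) univ j
    rw [Fintype.piFinset_univ] at h1
    rw [h1]
    simp only [Finset.card_univ, Fintype.card_bool, Fintype.card_fin, Fintype.sum_bool]
    obtain ⟨m, rfl⟩ : ∃ m, w = m + 1 := ⟨w - 1, by have := j.2; omega⟩
    simp
    ring
  simp_rw [h]
  simp
  ring

lemma sum_block {s w : ℕ} (Y : Finset (Fin w → Bool)) :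
    ∑ x ∈ Fintype.piFinset (fun _ : Fin s => Y), ∑ i, bw (x i) =
      s * ((Y.card : ℝ) ^ (s - 1) * ∑ y ∈ Y, bw y) := by
  rw [sum_comm]
  have h : ∀ i : Fin s, ∑ x ∈ Fintype.piFinset (fun _ : Fin s => Y), bw (x i) =
      (Y.card : ℝ) ^ (s - 1) * ∑ y ∈ Y, bw y := by
    intro i
    have h1 := Fintype.sum_piFinset_apply (fun y : Fin w → Bool => bw y) Y i
    rw [h1]
    simp
  simp_rw [h]
  simp

/-- the identification of `{0,1}^{sw}` with `s` blocks -/
def e (s w : ℕ) : (Fin (s * w) → Bool) ≃ (Fin s → Fin w → Bool) :=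
  (Equiv.arrowCongr finProdFinEquiv.symm (Equiv.refl Bool)).trans (Equiv.curry _ _ _)

lemma e_apply (s w : ℕ) (x : Fin (s * w) → Bool) (i : Fin s) (j : Fin w) :
    e s w x i j = x (finProdFinEquiv (i, j)) := rfl

lemma wt_e (s w : ℕ) (x : Fin (s * w) → Bool) : wt x = ∑ i, bw (e s w x i) := by
  have h1 : ∑ i, bw (e s w x i) = ∑ i : Fin s, ∑ j : Fin w,
      (fun k => if x k = true then (1 : ℝ) else 0) (finProdFinEquiv (i, j)) := rfl
  rw [h1, ← Fintype.sum_prod_type' (fun (i : Fin s) (j : Fin w) =>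
    (fun k => if x k = true then (1 : ℝ) else 0) (finProdFinEquiv (i, j)))]
  exact (Equiv.sum_comp finProdFinEquiv (fun k => if x k = true then (1 : ℝ) else 0)).symm

lemma tribes_e (s w : ℕ) (x : Fin (s * w) → Bool) :
    Tribes s w x ↔ ∃ i : Fin s, e s w x i = fun _ => true := by
  unfold Tribes
  constructor
  · rintro ⟨i, hi, h⟩
    refine ⟨⟨i, hi⟩, ?_⟩
    funext j
    rw [e_apply]
    apply h
    · simp only [finProdFinEquiv_apply_val]
      nlinarith
    · simp only [finProdFinEquiv_apply_val]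
      have := j.2
      nlinarith
  · rintro ⟨i, h⟩
    refine ⟨i, i.2, ?_⟩
    intro j h1 h2
    have h3 : (j : ℕ) - i * w < w := by
      have : ((i : ℕ) + 1) * w = i * w + w := by ring
      omega
    have h4 := congrFun h ⟨(j : ℕ) - i * w, h3⟩
    rw [e_apply] at h4
    have h5 : finProdFinEquiv (i, ⟨(j : ℕ) - i * w, h3⟩) = j := by
      apply Fin.ext
      simp only [finProdFinEquiv_apply_val]
      have : w * (i : ℕ) = i * w := by ring
      omega
    rwa [h5] at h4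

/-- blocks that are not all ones -/
def Y0 (w : ℕ) : Finset (Fin w → Bool) := univ.erase (fun _ => true)

lemma card_Y0 (w : ℕ) : ((Y0 w).card : ℝ) = 2 ^ w - 1 := by
  unfold Y0
  rw [card_erase_of_mem (mem_univ _), card_univ, Fintype.card_fun, Fintype.card_bool,
    Fintype.card_fin, Nat.cast_sub Nat.one_le_two_pow]
  push_cast
  ring

lemma sum_Y0 (w : ℕ) : ∑ y ∈ Y0 w, bw y = w * 2 ^ w / 2 - w := by
  have h := sum_bw w
  rw [← Finset.add_sum_erase univ bw (mem_univ (fun _ : Fin w => true))] at h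
  have h2 : bw (fun _ : Fin w => true) = w := by
    unfold bw; simp
  rw [h2] at h
  unfold Y0
  linarith

lemma compl_map (s w : ℕ) :
    ((setA s w)ᶜ).map (e s w).toEmbedding = Fintype.piFinset (fun _ : Fin s => Y0 w) := by
  classical
  ext z
  rw [Finset.mem_map_equiv]
  unfold setA
  rw [mem_compl, mem_filter_univ, tribes_e s w, Fintype.mem_piFinset]
  simp only [Equiv.apply_symm_apply, Y0, mem_erase, mem_univ, and_true]
  push Not
  rfl

/-- For every `w ≥ 1` the number `s_w` (largest `s` with `1-(1-2^{-w})^s ≤ 1/2`) exists, and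
`W_1(μ^0, μ^1) ≥ w/2`. Hence the supremum over `w` is infinite. -/
theorem result (w : ℕ) (hw : 1 ≤ w) :
    ∃ s : ℕ, IsGreatest {s : ℕ | 1 - (1 - ((2 : ℝ) ^ w)⁻¹) ^ s ≤ 1 / 2} s ∧
      (setA s w).Nonempty ∧ ((setA s w)ᶜ).Nonempty ∧
      (w : ℝ) / 2 ≤ W1 (unif (setA s w)ᶜ) (unif (setA s w)) := by
  have hN2 : (2 : ℝ) ≤ 2 ^ w := by
    calc (2 : ℝ) = 2 ^ 1 := by norm_num
      _ ≤ 2 ^ w := pow_le_pow_right₀ (by norm_num) hw
  set N : ℝ := 2 ^ w with hN
  have hNpos : 0 < N := by linarith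
  have hr0 : 0 ≤ 1 - N⁻¹ := by
    rw [sub_nonneg]; exact inv_le_one_of_one_le₀ (by linarith)
  have hr1 : 1 - N⁻¹ < 1 := by
    have := inv_pos.mpr hNpos
    linarith
  -- existence of s_w
  obtain ⟨B, hB⟩ := exists_pow_lt_of_lt_one (show (0 : ℝ) < 1 / 2 by norm_num) hr1
  have hne : {s : ℕ | 1 - (1 - N⁻¹) ^ s ≤ 1 / 2}.Nonempty := ⟨0, by norm_num⟩
  have hbdd : BddAbove {s : ℕ | 1 - (1 - N⁻¹) ^ s ≤ 1 / 2} := by
    refine ⟨B, ?_⟩
    intro s hs
    by_contra hcon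
    push Not at hcon
    have h1 : (1 - N⁻¹) ^ s ≤ (1 - N⁻¹) ^ B := pow_le_pow_of_le_one hr0 hr1.le hcon.le
    have h2 : 1 - (1 - N⁻¹) ^ s ≤ 1 / 2 := hs
    linarith
  obtain ⟨s, hs⟩ : ∃ s, IsGreatest {s : ℕ | 1 - (1 - N⁻¹) ^ s ≤ 1 / 2} s :=
    ⟨_, Nat.sSup_mem hne hbdd, fun x hx => le_csSup hbdd hx⟩
  have hs1 : 1 - (1 - N⁻¹) ^ s ≤ 1 / 2 := hs.1
  -- lower bound 2 s ≥ N
  have hsN : N ≤ 2 * s := by
    have h1 : ¬ (1 - (1 - N⁻¹) ^ (s + 1) ≤ 1 / 2) := by
      intro h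
      have := hs.2 h
      omega
    push Not at h1
    have h2 := one_add_mul_le_pow (a := -N⁻¹) (by
      have := inv_le_one_of_one_le₀ (show 1 ≤ N by linarith)
      linarith) (s + 1)
    have h3 : (1 + -N⁻¹) ^ (s + 1) = (1 - N⁻¹) ^ (s + 1) := by ring
    rw [h3] at h2
    have h4 : (1 : ℝ) / 2 < ((s + 1 : ℕ) : ℝ) * N⁻¹ := by linarith
    rw [← div_eq_mul_inv, lt_div_iff₀ hNpos] at h4
    -- N is an even natural number
    obtain ⟨m, rfl⟩ : ∃ m, w = m + 1 := ⟨w - 1, by omega⟩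
    have h5 : N = 2 * ((2 ^ m : ℕ) : ℝ) := by
      rw [hN]; push_cast; ring
    rw [h5] at h4 ⊢
    have h6 : ((2 ^ m : ℕ) : ℝ) < ((s + 1 : ℕ) : ℝ) := by linarith
    have h7 : 2 ^ m < s + 1 := by exact_mod_cast h6
    have h8 : ((2 ^ m : ℕ) : ℝ) ≤ (s : ℝ) := by exact_mod_cast (by omega : 2 ^ m ≤ s)
    linarith
  have hspos : 1 ≤ s := by
    by_contra hcon
    have : s = 0 := by omega
    subst this
    norm_num at hsN
    linarith
  -- cardinalities and sums
  have hZcard : (((setA s w)ᶜ).card : ℝ) = (N - 1) ^ s := by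
    rw [← card_map (e s w).toEmbedding, compl_map s w, Fintype.card_piFinset_const]
    push_cast
    rw [card_Y0]
  have hZsum : ∑ x ∈ (setA s w)ᶜ, wt x = s * ((N - 1) ^ (s - 1) * (w * N / 2 - w)) := by
    have h1 : ∑ x ∈ (setA s w)ᶜ, wt x =
        ∑ z ∈ ((setA s w)ᶜ).map (e s w).toEmbedding, ∑ i, bw (z i) := by
      rw [sum_map]
      apply sum_congr rfl
      intro x _
      exact wt_e s w x
    rw [h1, compl_map s w, sum_block, card_Y0, sum_Y0]
  have htot : ∑ x : Fin (s * w) → Bool, wt x = s * (N ^ (s - 1) * (w * N / 2)) := by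
    have h1 : ∑ x : Fin (s * w) → Bool, wt x = ∑ z : Fin s → Fin w → Bool, ∑ i, bw (z i) := by
      rw [← Equiv.sum_comp (e s w)]
      exact sum_congr rfl (fun x _ => wt_e s w x)
    have h2 := sum_block (s := s) (w := w) univ
    rw [Fintype.piFinset_univ] at h2
    rw [h1, h2, sum_bw]
    simp [hN]
  have hcard : ((setA s w).card : ℝ) + (((setA s w)ᶜ).card : ℝ) = N ^ s := by
    have := Finset.card_add_card_compl (setA s w)
    have h2 : (((setA s w).card + ((setA s w)ᶜ).card : ℕ) : ℝ) = ((2 ^ (s * w) : ℕ) : ℝ) := by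
      rw [this]
      simp
    push_cast at h2
    rw [h2, hN, ← pow_mul, mul_comm]
  have hsum : ∑ x ∈ setA s w, wt x + ∑ x ∈ (setA s w)ᶜ, wt x = s * (N ^ (s - 1) * (w * N / 2)) := by
    rw [← htot]
    exact Finset.sum_add_sum_compl _ _
  obtain ⟨t, rfl⟩ : ∃ t, s = t + 1 := ⟨s - 1, by omega⟩
  simp only [Nat.add_sub_cancel] at hZsum hsum
  set M : ℝ := N - 1 with hM
  have hMpos : 0 < M := by rw [hM]; linarith
  have hZpos : 0 < M ^ (t + 1) := by positivity
  have hpow : (1 - N⁻¹) ^ (t + 1) = M ^ (t + 1) / N ^ (t + 1) := by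
    rw [← div_pow]; congr 1; rw [hM]; field_simp
  have hNt : 0 < N ^ (t + 1) := by positivity
  have hhalf : ((setA (t + 1) w).card : ℝ) ≤ N ^ (t + 1) / 2 := by
    rw [hpow] at hs1
    have h1 : (1 : ℝ) / 2 ≤ M ^ (t + 1) / N ^ (t + 1) := by linarith
    rw [le_div_iff₀ hNt] at h1
    linarith [hcard, hZcard]
  have hApos : 0 < ((setA (t + 1) w).card : ℝ) := by
    have h1 : M ^ (t + 1) < N ^ (t + 1) := pow_lt_pow_left₀ (by rw [hM]; linarith) hMpos.le (by omega)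
    linarith
  have hAne : (setA (t + 1) w).Nonempty := by
    rw [← card_pos]; exact_mod_cast hApos
  have hZne : ((setA (t + 1) w)ᶜ).Nonempty := by
    rw [← card_pos]
    have : 0 < (((setA (t + 1) w)ᶜ).card : ℝ) := by rw [hZcard]; exact hZpos
    exact_mod_cast this
  refine ⟨t + 1, hs, hAne, hZne, ?_⟩
  refine le_trans ?_ (W1_ge _ _ hZne hAne)
  set a := ∑ x ∈ setA (t + 1) w, wt x with ha
  set b := ∑ x ∈ (setA (t + 1) w)ᶜ, wt x with hb
  set α := ((setA (t + 1) w).card : ℝ) with hα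
  set ζ := (((setA (t + 1) w)ᶜ).card : ℝ) with hζ
  have hwpos : (0 : ℝ) < w := by exact_mod_cast hw
  -- E0
  have hE0 : b / ζ = ((t + 1 : ℕ) : ℝ) * w * (N / 2 - 1) / M := by
    rw [hZcard, hZsum]
    field_simp
    ring
  have hkey : ((t + 1 : ℕ) : ℝ) * w / 2 - b / ζ = ((t + 1 : ℕ) : ℝ) * w / (2 * M) := by
    rw [hE0, hM]
    have : N - 1 ≠ 0 := by rw [← hM]; exact hMpos.ne'
    field_simp
    ring
  have hbz : b = (b / ζ) * ζ := by
    have : ζ ≠ 0 := by rw [hZcard]; exact hZpos.ne'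
    field_simp
  have hdiff : a / α - b / ζ = N ^ (t + 1) * (((t + 1 : ℕ) : ℝ) * w / 2 - b / ζ) / α := by
    have hne' : α ≠ 0 := hApos.ne'
    rw [eq_div_iff hne', sub_mul, div_mul_cancel₀ _ hne']
    have h1 : a = ((t + 1 : ℕ) : ℝ) * (N ^ t * (w * N / 2)) - b := by linarith
    have h2 : α = N ^ (t + 1) - ζ := by linarith
    rw [h1, h2]
    have h3 : b / ζ * (N ^ (t + 1) - ζ) = b / ζ * N ^ (t + 1) - b := by
      rw [mul_sub, ← hbz]
    rw [h3]
    ring
  rw [hdiff, hkey]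
  have h10 : (2 : ℝ) ≤ N ^ (t + 1) / α := by
    rw [le_div_iff₀ hApos]; linarith
  have h11 : (w : ℝ) / 2 ≤ 2 * (((t + 1 : ℕ) : ℝ) * w / (2 * M)) := by
    have h12 : M ≤ 2 * ((t + 1 : ℕ) : ℝ) := by rw [hM]; linarith
    have h13 : 2 * (((t + 1 : ℕ) : ℝ) * w / (2 * M)) = ((t + 1 : ℕ) : ℝ) * w / M := by
      field_simp
    rw [h13, div_le_div_iff₀ (by norm_num) hMpos]
    nlinarith
  calc (w : ℝ) / 2 ≤ 2 * (((t + 1 : ℕ) : ℝ) * w / (2 * M)) := h11
    _ ≤ (N ^ (t + 1) / α) * (((t + 1 : ℕ) : ℝ) * w / (2 * M)) := by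
        apply mul_le_mul_of_nonneg_right h10
        positivity
    _ = N ^ (t + 1) * (((t + 1 : ℕ) : ℝ) * w / (2 * M)) / α := by ring

end Pool.Agent.Results.MP_b6f08f_co.TribesUnbounded
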